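import Pool.Agent.W5h86.LY.Cx2

set_option autoImplicit false

/-!
# The Lie algebra in the coordinates with a sign at one place
-/

open Module Function

noncomputable section

namespace Pool.Agent.W5h86.LY

open Pool.Agent.Y102 Pool.Agent.W516.DR Pool.Agent.W516.KC Pool.Agent.W5h86.LZ

/-- the dimension of an eigenspace -/
lemma finrank_eig {ι V : Type} [Fintype ι] [DecidableEq ι] [AddCommGroup V] [Module ℂ V]
    (b : Basis ι ℂ V) (T : V →ₗ[ℂ] V) (l : ι → ℂ) (hT : ∀ i, T (b i) = l i • b i) (s : ℂ) :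
    finrank ℂ (LinearMap.ker (T - s • LinearMap.id)) = Fintype.card {i // l i = s} := by
  have hli : LinearIndependent ℂ (fun i : {i // l i = s} => b i.1) :=
    b.linearIndependent.comp _ Subtype.val_injective
  rw [← finrank_span_eq_card hli]
  have h1 : LinearMap.ker (T - s • LinearMap.id) =
      Submodule.span ℂ (Set.range fun i : {i // l i = s} => b i.1) := by
    apply le_antisymm
    · intro v hv
      rw [LinearMap.mem_ker, LinearMap.sub_apply, LinearMap.smul_apply, LinearMap.id_apply] at hv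
      have h2 : ∀ i, b.repr v i * (l i - s) = 0 := by
        intro i
        have h3 : T v - s • v = ∑ j, (b.repr v j * (l j - s)) • b j := by
          conv_lhs => rw [← b.sum_repr v]
          rw [map_sum, Finset.smul_sum, ← Finset.sum_sub_distrib]
          refine Finset.sum_congr rfl fun j _ => ?_
          rw [map_smul, hT, smul_smul, smul_smul, ← sub_smul]
          congr 1
          ring
        rw [h3] at hv
        exact Fintype.linearIndependent_iff.1 b.linearIndependent _ hv i
      rw [← b.sum_repr v]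
      refine Submodule.sum_mem _ fun i _ => ?_
      by_cases hi : l i = s
      · exact Submodule.smul_mem _ _ (Submodule.subset_span ⟨⟨i, hi⟩, rfl⟩)
      · rw [(mul_eq_zero.1 (h2 i)).resolve_right (sub_ne_zero.2 hi), zero_smul]
        exact Submodule.zero_mem _
    · rw [Submodule.span_le]
      rintro _ ⟨i, rfl⟩
      rw [SetLike.mem_coe, LinearMap.mem_ker, LinearMap.sub_apply, LinearMap.smul_apply,
        LinearMap.id_apply, hT, i.2, sub_self]
  rw [h1]

lemma comm_adjoin {V : Type} [AddCommGroup V] [Module ℚ V] {T P Q : Module.End ℚ V}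
    (h : T * P = P * T) (hQ : Q ∈ Algebra.adjoin ℚ {P}) : T * Q = Q * T := by
  induction hQ using Algebra.adjoin_induction with
  | mem x hx =>
    rw [Set.mem_singleton_iff] at hx
    rw [hx, h]
  | algebraMap r => exact (Algebra.commutes r T).symm
  | add a b _ _ ha hb => rw [mul_add, add_mul, ha, hb]
  | mul a b _ _ ha hb => rw [← mul_assoc, ha, mul_assoc, hb, mul_assoc]

variable {g : ℕ} {A : AbVar g} {P : Module.End ℚ A.H1}
  {M : (Fin g → ℂ) →ₗ[ℂ] (Fin g → ℂ)} {e : Basis (Fin g) ℂ (Fin g → ℂ)} {t : Fin g → ℝ}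
  {i0 : Fin g}

/-- subspaces which are stable under the Lie algebra -/
lemma stable' {P : Module.End ℚ A.H1} (hEA : ∀ Q ∈ A.EA, Q ∈ Algebra.adjoin ℚ {P})
    {W : Submodule ℝ (Fin g → ℂ)} (hW : ∀ Y ∈ A.CR A.LA, ∀ u ∈ W, Y u ∈ W)
    {Y : (Fin g → ℂ) →ₗ[ℝ] (Fin g → ℂ)} (hY : ∀ u, Y (A.ext P u) = A.ext P (Y u)) :
    ∀ u ∈ W, Y u ∈ W := by
  let S : Subalgebra ℚ (Module.End ℚ A.H1) :=
    { carrier := {Z | ∀ u ∈ W, A.ext Z u ∈ W}
      mul_mem' := by
        intro a b ha hb u hu
        rw [AbVar.ext_mul]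
        exact ha _ (hb u hu)
      add_mem' := by
        intro a b ha hb u hu
        have h1 : A.ext (a + b) = A.ext a + A.ext b := A.ext_per fun w => by
          rw [LinearMap.add_apply, AbVar.ext_apply, AbVar.ext_apply, AbVar.ext_apply,
            LinearMap.add_apply, map_add]
        rw [h1]
        exact W.add_mem (ha u hu) (hb u hu)
      algebraMap_mem' := by
        intro r u hu
        have h1 : A.ext (algebraMap ℚ (Module.End ℚ A.H1) r) = (r : ℝ) • LinearMap.id :=
          A.ext_per fun w => by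
            rw [AbVar.ext_apply, Module.algebraMap_end_apply, map_smul, LinearMap.smul_apply,
              LinearMap.id_apply]
            exact (Rat.cast_smul_eq_qsmul ℝ r (A.per w)).symm
        rw [h1]
        exact W.smul_mem _ hu }
  have hS : (A.LA : Set (Module.End ℚ A.H1)) ⊆ S := by
    intro Z hZ u hu
    exact hW _ (Submodule.subset_span ⟨Z, hZ, rfl⟩) u hu
  have h1 : ∀ f, A.cmpE f Y ∈ Subalgebra.toSubmodule S := by
    intro f
    have h2 : A.cmpE f Y ∈ Algebra.adjoin ℚ (A.LA : Set (Module.End ℚ A.H1)) := by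
      refine mem_adjoin_of_comm A.semi_LA fun Q hQ => ?_
      exact comm_adjoin (A.cmpE_comm f hY) (hEA Q hQ)
    exact (Algebra.adjoin_le hS) h2
  have h2 := mem_CR_of_cmp A h1
  intro u hu
  unfold AbVar.CR at h2
  clear hY h1
  induction h2 using Submodule.span_induction with
  | mem Y hY =>
    obtain ⟨Q, hQ, rfl⟩ := hY
    exact hQ u hu
  | zero => exact W.zero_mem
  | add a b _ _ ha hb => exact W.add_mem ha hb
  | smul c a _ ha => exact W.smul_mem _ ha

/-- the subspace of the place -/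
def UU (t : Fin g → ℝ) (i0 : Fin g) : Submodule ℂ (Fin g → ℂ) :=
  LinearMap.ker ((Matrix.toLin' (Matrix.diagonal fun i => (sc t i0 i : ℂ))) -
    (t i0 : ℂ) • LinearMap.id)

lemma mem_UU (z : Fin g → ℂ) : z ∈ UU t i0 ↔ ∀ i, sc t i0 i ≠ t i0 → z i = 0 := by
  unfold UU
  rw [LinearMap.mem_ker]
  constructor
  · intro h i hi
    have h1 := congrFun h i
    rw [LinearMap.sub_apply, Pi.sub_apply, Matrix.toLin'_apply, Matrix.mulVec_diagonal,
      LinearMap.smul_apply, Pi.smul_apply, LinearMap.id_apply, smul_eq_mul, ← sub_mul,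
      Pi.zero_apply] at h1
    refine (mul_eq_zero.1 h1).resolve_left (sub_ne_zero.2 ?_)
    exact_mod_cast hi
  · intro h
    funext i
    rw [LinearMap.sub_apply, Pi.sub_apply, Matrix.toLin'_apply, Matrix.mulVec_diagonal,
      LinearMap.smul_apply, Pi.smul_apply, LinearMap.id_apply, smul_eq_mul, ← sub_mul,
      Pi.zero_apply]
    by_cases hi : sc t i0 i = t i0
    · rw [hi, sub_self, zero_mul]
    · rw [h i hi, mul_zero]

lemma finrank_UU : finrank ℂ (UU t i0) = Fintype.card {i // sc t i0 i = t i0} := by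
  unfold UU
  rw [finrank_eig (Pi.basisFun ℂ (Fin g)) _ (fun i => (sc t i0 i : ℂ)) (fun i => ?_)]
  · apply Fintype.card_congr
    exact Equiv.subtypeEquivRight fun i => by
      rw [Complex.ofReal_inj]
  · rw [Pi.basisFun_apply, Matrix.toLin'_apply, Matrix.mulVec_single_one]
    funext j
    rw [Matrix.col_apply, Matrix.diagonal_apply, Pi.smul_apply, smul_eq_mul]
    by_cases hij : j = i
    · subst hij
      simp
    · rw [if_neg hij, Pi.single_eq_of_ne hij, mul_zero]

/-- the Lie algebra -/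
abbrev 𝔥A (A : AbVar g) (e : Basis (Fin g) ℂ (Fin g → ℂ)) (i0 : Fin g) :
    Submodule ℝ (Matrix (Fin g) (Fin g) ℂ) := (A.CR A.LA).comap (tr (theta e i0))

/-- the matrix of the form -/
abbrev HA (A : AbVar g) (e : Basis (Fin g) ℂ (Fin g → ℂ)) (i0 : Fin g) :
    Matrix (Fin g) (Fin g) ℂ := Hm A.E (Jc e i0) (theta e i0)

lemma Setup2.comm_coord (h : Setup2 A P M e t i0) {X : Matrix (Fin g) (Fin g) ℂ}
    (hX : ∀ v, tr (theta e i0) X (M v) = M (tr (theta e i0) X v)) (z : Fin g → ℂ) :
    X.mulVec (fun i => (sc t i0 i * Complex.I) * z i) =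
      fun i => (sc t i0 i * Complex.I) * X.mulVec z i := by
  apply (theta e i0).injective
  rw [← tr_theta, ← M_theta h.he, hX, tr_theta, M_theta h.he]

lemma Setup2.comm_of_coord (h : Setup2 A P M e t i0) {X : Matrix (Fin g) (Fin g) ℂ}
    (hX : ∀ z : Fin g → ℂ, X.mulVec (fun i => (sc t i0 i * Complex.I) * z i) =
      fun i => (sc t i0 i * Complex.I) * X.mulVec z i) (v : Fin g → ℂ) :
    tr (theta e i0) X (M v) = M (tr (theta e i0) X v) := by
  obtain ⟨z, rfl⟩ := (theta e i0).surjective v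
  rw [M_theta h.he, tr_theta, tr_theta, M_theta h.he, hX]

lemma Setup2.st (h : Setup2 A P M e t i0) {X : Matrix (Fin g) (Fin g) ℂ}
    (hX : ∀ v, tr (theta e i0) X (M v) = M (tr (theta e i0) X v)) {u : Fin g → ℂ}
    (hu : u ∈ UU t i0) : X.mulVec u ∈ UU t i0 := by
  rw [mem_UU] at hu ⊢
  intro i hi
  have h1 := h.comm_coord hX u
  have h2 : (fun i => (sc t i0 i * Complex.I) * u i) = (t i0 * Complex.I : ℂ) • u := by
    funext j
    rw [Pi.smul_apply, smul_eq_mul]
    by_cases hj : sc t i0 j = t i0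
    · rw [hj]
    · rw [hu j hj, mul_zero, mul_zero]
  rw [h2, Matrix.mulVec_smul] at h1
  have h3 := congrFun h1 i
  rw [Pi.smul_apply, smul_eq_mul] at h3
  have h4 : ((t i0 : ℂ) - sc t i0 i) * Complex.I * X.mulVec u i = 0 := by
    linear_combination h3
  refine (mul_eq_zero.1 h4).resolve_left (mul_ne_zero ?_ Complex.I_ne_zero)
  rw [sub_ne_zero]
  exact_mod_cast Ne.symm hi

lemma Setup2.hf_zero (h : Setup2 A P M e t i0) {z : Fin g → ℂ} (hz : z i0 = 0) :
    hf (HA A e i0) (ee i0) z = 0 := by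
  have h1 := h.orth0 1 hz
  have h2 := h.orth0 1 (z := Complex.I • z) (by rw [Pi.smul_apply, hz, smul_zero])
  rw [one_smul] at h1 h2
  rw [hf_Hm h.cx, theta_ee, h1, Jc_theta, h2]
  simp

lemma Setup2.hf_self (h : Setup2 A P M e t i0) :
    hf (HA A e i0) (ee i0) (ee i0) = (A.E (e i0) (Complex.I • e i0) : ℂ) := by
  rw [hf_Hm h.cx, Jc_theta, theta_ee_smul, theta_ee, A.E_self]
  simp

lemma Setup2.pos (_h : Setup2 A P M e t i0) :
    0 < A.E (e i0) (Complex.I • e i0) := A.E_pos (e.ne_zero _)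

lemma Setup2.neg (h : Setup2 A P M e t i0) {v : Fin g → ℂ} (hv0 : v ≠ 0)
    (hv : hf (HA A e i0) (ee i0) v = 0) : qf (HA A e i0) v < 0 := by
  have h1 : v = (v - v i0 • ee i0) + v i0 • ee i0 := by
    rw [sub_add_cancel]
  have h2 : (v - v i0 • ee i0 : Fin g → ℂ) i0 = 0 := by
    rw [Pi.sub_apply, Pi.smul_apply, ee_same, smul_eq_mul, mul_one, sub_self]
  have h3 : v i0 = 0 := by
    rw [h1, hf_add_right, h.hf_zero h2, hf_smul_right, h.hf_self, zero_add] at hv
    refine (mul_eq_zero.1 hv).resolve_right ?_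
    exact_mod_cast h.pos.ne'
  have h4 : theta e i0 v ≠ 0 := by
    intro h5
    apply hv0
    apply (theta e i0).injective
    rw [h5, map_zero]
  rw [qf_eq, hf_Hm h.cx, Jc_theta, theta_neg h3, map_neg, A.E_self]
  have h5 := A.E_pos h4
  simp only [Complex.ofReal_neg, Complex.ofReal_zero, mul_zero, add_zero, Complex.neg_re,
    Complex.ofReal_re]
  linarith

/-- **The Lie algebra in coordinates.** -/
theorem Setup2.udata (h : Setup2 A P M e t i0) (hdim : 3 ≤ finrank ℂ (UU t i0)) :
    UData (𝔥A A e i0) (HA A e i0) (UU t i0) := by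
  have hcomm : ∀ X ∈ 𝔥A A e i0, ∀ v, tr (theta e i0) X (M v) = M (tr (theta e i0) X v) :=
    fun X hX v => h.M_comm (Submodule.mem_comap.1 hX) v
  refine ⟨?_, Hm_herm h.cx, ⟨ee i0, fun _ hv0 hv => h.neg hv0 hv⟩, ?_, ?_, ?_, ?_, ?_, ?_, hdim⟩
  · intro X hX Y hY
    rw [Submodule.mem_comap] at hX hY ⊢
    rw [map_sub, tr_mul, tr_mul]
    exact CR_bracket (fun X hX Y hY => A.LA_bracket hX hY) hX hY
  · intro h0
    obtain ⟨v, hv0, hv⟩ := Matrix.exists_mulVec_eq_zero_iff.2 h0
    have h1 := h.neg hv0 (by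
      unfold hf
      rw [hv, dotProduct_zero])
    rw [qf_eq] at h1
    unfold hf at h1
    rw [hv, dotProduct_zero, Complex.zero_re] at h1
    exact lt_irrefl _ h1
  · intro X hX
    exact skew_Hm h.cx fun u v =>
      CR_skew (fun X hX => A.LA_skew hX) (Submodule.mem_comap.1 hX) u v
  · intro X hX u hu
    exact h.st (hcomm X hX) hu
  · intro N hNU hN
    by_cases hb : N = ⊥
    · exact Or.inl hb
    right
    refine le_antisymm hNU fun v hv => ?_
    obtain ⟨u, hu, hu0⟩ := Submodule.exists_mem_ne_zero_of_ne_bot hb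
    obtain ⟨i, hi⟩ : ∃ i, u i ≠ 0 := by
      by_contra hcon
      push Not at hcon
      exact hu0 (funext hcon)
    have hui := (mem_UU u).1 (hNU hu)
    have hvU := (mem_UU v).1 hv
    have hsi : sc t i0 i = t i0 := by
      by_contra hcon
      exact hi (hui i hcon)
    let W : Submodule ℝ (Fin g → ℂ) :=
      (N.restrictScalars ℝ).comap ((theta e i0).symm : (Fin g → ℂ) →ₗ[ℝ] (Fin g → ℂ))
    have hW : ∀ v, v ∈ W ↔ (theta e i0).symm v ∈ N := fun v => Iff.rfl
    have h1 : ∀ Y ∈ A.CR A.LA, ∀ v ∈ W, Y v ∈ W := by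
      intro Y hY v hv
      obtain ⟨X', rfl⟩ := exists_tr h.cx (h.J_comm hY)
      obtain ⟨z, rfl⟩ := (theta e i0).surjective v
      rw [hW, LinearEquiv.symm_apply_apply] at hv
      rw [hW, tr_theta, LinearEquiv.symm_apply_apply]
      exact hN X' hY z hv
    set X : Matrix (Fin g) (Fin g) ℂ :=
      Matrix.of fun j k => if k = i then v j * (u i)⁻¹ else 0 with hX
    have hXz : ∀ z : Fin g → ℂ, X.mulVec z = fun j => v j * (u i)⁻¹ * z i := by
      intro z
      funext j
      unfold Matrix.mulVec dotProduct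
      simp only [hX, Matrix.of_apply]
      rw [Finset.sum_eq_single i]
      · rw [if_pos rfl]
      · intro k _ hk
        rw [if_neg hk, zero_mul]
      · intro h
        exact absurd (Finset.mem_univ _) h
    have h2 := stable' h.hEA h1 (Y := tr (theta e i0) X) (fun w => by
      rw [ext_eq h.hM, ext_eq h.hM]
      refine h.comm_of_coord (fun z => ?_) w
      rw [hXz, hXz]
      funext j
      beta_reduce
      rw [hsi]
      by_cases hj : sc t i0 j = t i0
      · rw [hj]
        ring
      · rw [hvU j hj]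
        ring)
    have h3 := h2 (theta e i0 u) (by
      rw [hW, LinearEquiv.symm_apply_apply]
      exact hu)
    rw [hW, tr_theta, LinearEquiv.symm_apply_apply, hXz] at h3
    have h4 : (fun j => v j * (u i)⁻¹ * u i) = v := by
      funext j
      rw [mul_assoc, inv_mul_cancel₀ hi, mul_one]
    rw [h4] at h3
    exact h3
  · exact nd_Hm h.cx (fun Y hY => h.J_comm hY) (fun Y hY => CR_nd A.trace_LA hY)
  · refine ⟨ee i0, ?_, ?_⟩
    · rw [mem_UU]
      intro i hi
      refine ee_ne ?_
      rintro rfl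
      exact hi sc_same
    · rw [qf_eq, h.hf_self, Complex.ofReal_re]
      exact h.pos

end Pool.Agent.W5h86.LY
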