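import Pool.Agent.W5h86.LZ.Br4
import Pool.Agent.W5h86.LY.Onb2

set_option autoImplicit false

/-!
# The coordinates with a sign at one place
-/

open Module Function

noncomputable section

namespace Pool.Agent.W5h86.LY

open Pool.Agent.Y102 Pool.Agent.W516.DR Pool.Agent.W516.KC Pool.Agent.W5h86.LZ

section Gen

open Matrix

variable {ι : Type} [Fintype ι] [DecidableEq ι] {V : Type} [AddCommGroup V] [Module ℝ V]
  {E : V →ₗ[ℝ] V →ₗ[ℝ] ℝ} {Jc : V →ₗ[ℝ] V} {θ : (ι → ℂ) ≃ₗ[ℝ] V}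

lemma tr_zero {X : Matrix ι ι ℂ} (hX : tr θ X = 0) : X = 0 := by
  ext i j
  have h1 := congrArg (fun Y : V →ₗ[ℝ] V => θ.symm (Y (θ (ee j)))) hX
  simp only [tr_theta, LinearEquiv.symm_apply_apply, LinearMap.zero_apply, map_zero] at h1
  have h2 := congrFun h1 i
  rw [mulVec_ee] at h2
  exact h2

/-- skew-symmetric operators in coordinates -/
lemma skew_Hm (h : Cx E Jc θ) {X : Matrix ι ι ℂ}
    (hsk : ∀ u v, E (tr θ X u) v + E u (tr θ X v) = 0) :
    Xᴴ * Hm E Jc θ + Hm E Jc θ * X = 0 := by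
  have h1 : ∀ z w, hf (Hm E Jc θ) (X *ᵥ z) w + hf (Hm E Jc θ) z (X *ᵥ w) = 0 := by
    intro z w
    rw [hf_Hm h, hf_Hm h, ← tr_theta, ← tr_theta, ← tr_Jc h]
    have h2 := hsk (θ z) (θ w)
    have h3 := hsk (θ z) (Jc (θ w))
    have h4 : ((E (tr θ X (θ z)) (Jc (θ w)) + E (θ z) (tr θ X (Jc (θ w))) : ℝ) : ℂ) = 0 := by
      rw [h3, Complex.ofReal_zero]
    have h5 : ((E (tr θ X (θ z)) (θ w) + E (θ z) (tr θ X (θ w)) : ℝ) : ℂ) = 0 := by
      rw [h2, Complex.ofReal_zero]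
    push_cast at h4 h5
    linear_combination h4 + Complex.I * h5
  ext i j
  have h2 := h1 (ee i) (ee j)
  have h3 : hf (Hm E Jc θ) (X *ᵥ ee i) (ee j) = (Xᴴ * Hm E Jc θ) i j := by
    unfold hf
    rw [star_mulVec, ← dotProduct_mulVec, mulVec_mulVec]
    have h4 := sp_ee_left ((Xᴴ * Hm E Jc θ) *ᵥ ee j) i
    unfold sp at h4
    rw [h4, mulVec_ee]
  have h4 : hf (Hm E Jc θ) (ee i) (X *ᵥ ee j) = (Hm E Jc θ * X) i j := by
    unfold hf
    rw [mulVec_mulVec]
    have h4 := sp_ee_left ((Hm E Jc θ * X) *ᵥ ee j) i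
    unfold sp at h4
    rw [h4, mulVec_ee]
  rw [h3, h4] at h2
  exact h2

lemma nd_Hm (h : Cx E Jc θ) {𝔤 : Submodule ℝ (V →ₗ[ℝ] V)}
    (hJ : ∀ Y ∈ 𝔤, ∀ v, Y (Jc v) = Jc (Y v))
    (hnd : ∀ Y ∈ 𝔤, (∀ Y' ∈ 𝔤, LinearMap.trace ℝ V (Y.comp Y') = 0) → Y = 0) :
    ∀ X ∈ 𝔤.comap (tr θ), (∀ Y ∈ 𝔤.comap (tr θ), tf X Y = 0) → X = 0 := by
  intro X hX hXY
  apply tr_zero (θ := θ)
  refine hnd _ hX fun Y' hY' => ?_
  obtain ⟨X', rfl⟩ := exists_tr h (hJ Y' hY')
  rw [← tr_mul, trace_tr]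
  have h1 := hXY X' (Submodule.mem_comap.2 hY')
  unfold tf at h1
  rw [h1, mul_zero]

/-- commutation with the multiplication by the imaginary unit -/
lemma comm_I {Y : (ι → ℂ) →ₗ[ℝ] (ι → ℂ)} {s : ι → ℝ} (hs : ∀ j k, s j + s k ≠ 0)
    (hY : ∀ z, Y (fun i => (s i * Complex.I) * z i) = fun i => (s i * Complex.I) * Y z i)
    (z : ι → ℂ) : Y (Complex.I • z) = Complex.I • Y z := by
  have key : ∀ k (c : ℂ), Y (Pi.single k (Complex.I * c)) = Complex.I • Y (Pi.single k c) := by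
    intro k c
    funext j
    have e1 : ∀ c : ℂ, (s k : ℂ) * Y (Pi.single k (Complex.I * c)) j =
        (s j * Complex.I) * Y (Pi.single k c) j := by
      intro c
      have h1 := congrFun (hY (Pi.single k c)) j
      have h2 : (fun i => ((s i * Complex.I : ℂ)) * (Pi.single k c : ι → ℂ) i) =
          s k • (Pi.single k (Complex.I * c) : ι → ℂ) := by
        funext i
        by_cases hi : i = k
        · subst hi
          simp only [Pi.single_eq_same, Pi.smul_apply, Complex.real_smul]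
          ring
        · simp [Pi.single_eq_of_ne hi]
      rw [h2, map_smul, Pi.smul_apply, Complex.real_smul] at h1
      exact h1
    have e2 := e1 c
    have e3 := e1 (Complex.I * c)
    rw [← mul_assoc, Complex.I_mul_I, neg_one_mul] at e3
    have e4 : Y (Pi.single k (-c)) j = -Y (Pi.single k c) j := by
      have e5 : (Pi.single k (-c) : ι → ℂ) = -Pi.single k c := by
        funext i
        by_cases hi : i = k
        · subst hi
          simp
        · simp [Pi.single_eq_of_ne hi]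
      rw [e5, map_neg, Pi.neg_apply]
    rw [e4] at e3
    have h5 : ((s j : ℂ) + s k) * Y (Pi.single k (Complex.I * c)) j =
        ((s j : ℂ) + s k) * (Complex.I * Y (Pi.single k c) j) := by
      linear_combination e2 + Complex.I * e3 +
        (s j * Y (Pi.single k (Complex.I * c)) j : ℂ) * Complex.I_mul_I
    have h6 : ((s j : ℂ) + s k) ≠ 0 := by exact_mod_cast hs j k
    rw [Pi.smul_apply, smul_eq_mul]
    exact mul_left_cancel₀ h6 h5
  have hz : z = ∑ k, Pi.single k (z k) := (Finset.univ_sum_single z).symm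
  have hIz : Complex.I • z = ∑ k, Pi.single k (Complex.I * z k) :=
    (Finset.univ_sum_single (Complex.I • z)).symm
  rw [hIz, map_sum]
  conv_rhs => rw [hz, map_sum, Finset.smul_sum]
  exact Finset.sum_congr rfl fun k _ => key k (z k)

end Gen

variable {g : ℕ} {A : AbVar g} {P : Module.End ℚ A.H1}
  {M : (Fin g → ℂ) →ₗ[ℂ] (Fin g → ℂ)} {e : Basis (Fin g) ℂ (Fin g → ℂ)} {t : Fin g → ℝ}
  {i0 : Fin g}

/-- the conjugation on the coordinates which are different from `i0` -/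
def cj (i0 i : Fin g) : ℂ ≃ₗ[ℝ] ℂ :=
  if i = i0 then LinearEquiv.refl ℝ ℂ else Complex.conjAe.toLinearEquiv

lemma cj_same (i0 : Fin g) (z : ℂ) : cj i0 i0 z = z := by
  unfold cj
  rw [if_pos rfl]
  rfl

lemma cj_ne {i0 i : Fin g} (h : i ≠ i0) (z : ℂ) : cj i0 i z = (starRingEnd ℂ) z := by
  unfold cj
  rw [if_neg h]
  rfl

/-- the coordinates -/
def theta (e : Basis (Fin g) ℂ (Fin g → ℂ)) (i0 : Fin g) : (Fin g → ℂ) ≃ₗ[ℝ] (Fin g → ℂ) :=
  (LinearEquiv.piCongrRight (cj i0)).trans (e.equivFun.symm.restrictScalars ℝ)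

lemma theta_apply (z : Fin g → ℂ) : theta e i0 z = ∑ i, cj i0 i (z i) • e i := by
  unfold theta
  rw [LinearEquiv.trans_apply]
  exact e.equivFun_symm_apply _

/-- the complex structure -/
def Jc (e : Basis (Fin g) ℂ (Fin g → ℂ)) (i0 : Fin g) : (Fin g → ℂ) →ₗ[ℝ] (Fin g → ℂ) :=
  ((theta e i0).toLinearMap.comp
    ((Complex.I • (LinearMap.id : (Fin g → ℂ) →ₗ[ℂ] (Fin g → ℂ))).restrictScalars ℝ)).comp
    (theta e i0).symm.toLinearMap

lemma Jc_theta (z : Fin g → ℂ) : Jc e i0 (theta e i0 z) = theta e i0 (Complex.I • z) := by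
  unfold Jc
  simp

/-- the eigenvalues in the new coordinates -/
def sc (t : Fin g → ℝ) (i0 i : Fin g) : ℝ := if i = i0 then t i0 else -t i

lemma sc_same : sc t i0 i0 = t i0 := if_pos rfl

lemma sc_ne {i : Fin g} (h : i ≠ i0) : sc t i0 i = -t i := if_neg h

lemma M_theta (he : ∀ i, M (e i) = (t i * Complex.I : ℂ) • e i) (z : Fin g → ℂ) :
    M (theta e i0 z) = theta e i0 (fun i => (sc t i0 i * Complex.I) * z i) := by
  rw [theta_apply, theta_apply, map_sum]
  refine Finset.sum_congr rfl fun i _ => ?_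
  rw [map_smul, he, smul_smul]
  congr 1
  by_cases hi : i = i0
  · subst hi
    rw [cj_same, cj_same, sc_same]
    ring
  · rw [cj_ne hi, cj_ne hi, sc_ne hi, map_mul, map_mul, Complex.conj_I, Complex.conj_ofReal]
    push_cast
    ring

lemma theta_neg {z : Fin g → ℂ} (hz : z i0 = 0) :
    theta e i0 (Complex.I • z) = -(Complex.I • theta e i0 z) := by
  rw [theta_apply, theta_apply, Finset.smul_sum, ← Finset.sum_neg_distrib]
  refine Finset.sum_congr rfl fun i _ => ?_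
  by_cases hi : i = i0
  · subst hi
    rw [Pi.smul_apply, hz, smul_zero, map_zero, zero_smul, smul_zero, neg_zero]
  · rw [cj_ne hi, cj_ne hi, Pi.smul_apply, smul_eq_mul, map_mul, Complex.conj_I, smul_smul,
      ← neg_smul]
    congr 1
    ring

lemma theta_ee_smul (c : ℂ) : theta e i0 (c • ee i0) = c • e i0 := by
  rw [theta_apply, Finset.sum_eq_single i0]
  · rw [cj_same, Pi.smul_apply, ee_same, smul_eq_mul, mul_one]
  · intro i _ hi
    rw [Pi.smul_apply, ee_ne hi, smul_zero, map_zero, zero_smul]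
  · intro h
    exact absurd (Finset.mem_univ _) h

lemma theta_ee : theta e i0 (ee i0) = e i0 := by
  have h := theta_ee_smul (e := e) (i0 := i0) 1
  rwa [one_smul, one_smul] at h

/-- the data of the theorem in coordinates -/
structure Setup2 (A : AbVar g) (P : Module.End ℚ A.H1) (M : (Fin g → ℂ) →ₗ[ℂ] (Fin g → ℂ))
    (e : Basis (Fin g) ℂ (Fin g → ℂ)) (t : Fin g → ℝ) (i0 : Fin g) : Prop where
  hM : ∀ w, M (A.per w) = A.per (P w)
  he : ∀ i, M (e i) = (t i * Complex.I : ℂ) • e i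
  h0 : ∀ i, i ≠ i0 → t i ≠ t i0
  hd : ∀ i j, sc t i0 i + sc t i0 j ≠ 0
  skew : ∀ u v, A.E (M u) v = -A.E u (M v)
  hP : P ∈ A.EA
  hEA : ∀ Q ∈ A.EA, Q ∈ Algebra.adjoin ℚ {P}

/-- orthogonality of the eigenspaces -/
lemma Setup2.orth (h : Setup2 A P M e t i0) {i j : Fin g} (hij : t i ≠ t j) (z w : ℂ) :
    A.E (z • e i) (w • e j) = 0 := by
  have hsl : ∀ (r : ℝ) x y, A.E (r • x) y = r * A.E x y := fun r x y => by
    rw [map_smul, LinearMap.smul_apply, smul_eq_mul]
  have hsr : ∀ (r : ℝ) x y, A.E x (r • y) = r * A.E x y := fun r x y => by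
    rw [map_smul, smul_eq_mul]
  have hI : ∀ x y, A.E (Complex.I • x) y = -A.E x (Complex.I • y) := fun x y => by
    rw [(A.E_I x y).2]
  have hMM : ∀ (z : ℂ) (i : Fin g), M (z • e i) = t i • (Complex.I • (z • e i)) := by
    intro z i
    rw [map_smul, h.he]
    funext x
    simp only [Pi.smul_apply, smul_eq_mul, Complex.real_smul]
    ring
  have key : ∀ z w : ℂ, A.E (z • e i) (Complex.I • (w • e j)) = 0 := by
    intro z w
    have h1 := h.skew (z • e i) (w • e j)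
    rw [hMM, hMM, hsl, hsr, hI] at h1
    have h2 : (t i - t j) * A.E (z • e i) (Complex.I • (w • e j)) = 0 := by linarith
    exact (mul_eq_zero.1 h2).resolve_left (sub_ne_zero.2 hij)
  have h3 := key z (-Complex.I * w)
  rw [smul_smul, ← mul_assoc, mul_neg, Complex.I_mul_I, neg_neg, one_mul] at h3
  exact h3

lemma E_sum (x y : Fin g → (Fin g → ℂ)) (h : ∀ i j, A.E (x i) (y j) = 0) :
    A.E (∑ i, x i) (∑ j, y j) = 0 := by
  rw [map_sum]
  refine Finset.sum_eq_zero fun j _ => ?_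
  rw [map_sum, LinearMap.sum_apply]
  exact Finset.sum_eq_zero fun i _ => h i j

lemma Setup2.orth0 (h : Setup2 A P M e t i0) (c : ℂ) {z : Fin g → ℂ} (hz : z i0 = 0) :
    A.E (c • e i0) (theta e i0 z) = 0 := by
  rw [theta_apply, map_sum]
  refine Finset.sum_eq_zero fun i _ => ?_
  by_cases hi : i = i0
  · subst hi
    rw [hz, map_zero, zero_smul, map_zero]
  · exact h.orth (Ne.symm (h.h0 i hi)) _ _

/-- orthogonality of the two parts of the space -/
lemma Setup2.orth1 (h : Setup2 A P M e t i0) {z w : Fin g → ℂ}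
    (hz : ∀ i, sc t i0 i ≠ t i0 → z i = 0) (hw : ∀ i, sc t i0 i = t i0 → w i = 0) :
    A.E (theta e i0 z) (theta e i0 w) = 0 := by
  rw [theta_apply, theta_apply]
  refine E_sum _ _ fun i j => ?_
  by_cases hi : sc t i0 i = t i0
  · by_cases hj : sc t i0 j = t i0
    · rw [hw j hj, map_zero, zero_smul, map_zero]
    · apply h.orth
      have hj0 : j ≠ i0 := fun h => hj (by rw [h, sc_same])
      rw [sc_ne hj0] at hj
      by_cases hi0 : i = i0
      · subst hi0
        exact Ne.symm (h.h0 j hj0)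
      · rw [sc_ne hi0] at hi
        intro hij
        apply hj
        rw [← hij, hi]
  · rw [hz i hi, map_zero, zero_smul, map_zero, LinearMap.zero_apply]

lemma Setup2.cx (h : Setup2 A P M e t i0) : Cx A.E (Jc e i0) (theta e i0) := by
  refine ⟨fun z => (Jc_theta z).symm, A.E_self, fun u v => ?_⟩
  obtain ⟨z, rfl⟩ := (theta e i0).surjective u
  obtain ⟨w, rfl⟩ := (theta e i0).surjective v
  rw [Jc_theta, Jc_theta]
  have hdec : ∀ z : Fin g → ℂ, z = (z i0) • ee i0 + (z - (z i0) • ee i0) := fun z => by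
    rw [add_sub_cancel]
  have hz0 : ∀ z : Fin g → ℂ, (z - (z i0) • ee i0 : Fin g → ℂ) i0 = 0 := by
    intro z
    rw [Pi.sub_apply, Pi.smul_apply, ee_same, smul_eq_mul, mul_one, sub_self]
  have hth : ∀ z : Fin g → ℂ, theta e i0 z =
      (z i0) • e i0 + theta e i0 (z - (z i0) • ee i0) := by
    intro z
    conv_lhs => rw [hdec z, map_add, theta_ee_smul]
  have hthI : ∀ z : Fin g → ℂ, theta e i0 (Complex.I • z) =
      Complex.I • ((z i0) • e i0) - Complex.I • theta e i0 (z - (z i0) • ee i0) := by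
    intro z
    conv_lhs => rw [hdec z, smul_add, map_add, smul_smul, theta_ee_smul, theta_neg (hz0 z)]
    rw [smul_smul]
    exact (sub_eq_add_neg _ _).symm
  rw [hthI z, hthI w, hth z, hth w]
  have o1 := h.orth0 (z i0) (hz0 w)
  have o2 := h.orth0 (w i0) (hz0 z)
  have o2' : A.E (theta e i0 (z - (z i0) • ee i0)) (w i0 • e i0) = 0 := by
    rw [A.E_anti, o2, neg_zero]
  generalize theta e i0 (z - (z i0) • ee i0) = b at *
  generalize theta e i0 (w - (w i0) • ee i0) = b' at *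
  generalize (z i0) • e i0 = a at *
  generalize (w i0) • e i0 = a' at *
  simp only [map_add, map_sub, LinearMap.add_apply, LinearMap.sub_apply, (A.E_I _ _).1, o1, o2']
  ring

lemma Setup2.M_comm (h : Setup2 A P M e t i0) {Y : (Fin g → ℂ) →ₗ[ℝ] (Fin g → ℂ)}
    (hY : Y ∈ A.CR A.LA) (v : Fin g → ℂ) : Y (M v) = M (Y v) := by
  have h1 := CR_comm (A := A) (C := A.LA) (P := P) (fun X hX => h.hP X hX) hY v
  rwa [ext_eq h.hM, ext_eq h.hM] at h1

lemma Setup2.J_comm' (h : Setup2 A P M e t i0) {Y : (Fin g → ℂ) →ₗ[ℝ] (Fin g → ℂ)}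
    (hY : ∀ v, Y (M v) = M (Y v)) (v : Fin g → ℂ) : Y (Jc e i0 v) = Jc e i0 (Y v) := by
  obtain ⟨z, rfl⟩ := (theta e i0).surjective v
  let Y' : (Fin g → ℂ) →ₗ[ℝ] (Fin g → ℂ) :=
    ((theta e i0).symm.toLinearMap.comp Y).comp (theta e i0).toLinearMap
  have hY' : ∀ z, theta e i0 (Y' z) = Y (theta e i0 z) := fun z => by
    change theta e i0 ((theta e i0).symm (Y (theta e i0 z))) = _
    rw [LinearEquiv.apply_symm_apply]
  have h1 := comm_I (Y := Y') (s := sc t i0) h.hd (fun z => by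
    apply (theta e i0).injective
    rw [hY', ← M_theta h.he, ← M_theta (z := Y' z) h.he, hY, hY']) z
  rw [Jc_theta, ← hY', h1, ← Jc_theta, hY']

lemma Setup2.J_comm (h : Setup2 A P M e t i0) {Y : (Fin g → ℂ) →ₗ[ℝ] (Fin g → ℂ)}
    (hY : Y ∈ A.CR A.LA) (v : Fin g → ℂ) : Y (Jc e i0 v) = Jc e i0 (Y v) :=
  h.J_comm' (h.M_comm hY) v

end Pool.Agent.W5h86.LY
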