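import Pool.Agent.W5h86.LZ.Onb

set_option autoImplicit false

/-!
# The Perron-Frobenius argument on a subspace
-/

open Matrix Module

namespace Pool.Agent.W5h86.LY

open Pool.Agent.W5h86.LZ

variable {ι κ : Type} [Fintype ι] [DecidableEq ι] [Fintype κ] [DecidableEq κ]

omit [DecidableEq κ] in
/-- the averaging operator commutes with the Lie algebra -/
lemma avg_equi {d : ℕ} {w : Fin d → Matrix κ κ ℂ} {X : Matrix κ κ ℂ} (c : Fin d → Fin d → ℝ)
    (hanti : ∀ i j, c i j = -c j i) (hbrk : ∀ i, X * w i - w i * X = ∑ j, c j i • w j)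
    (M : Matrix κ κ ℂ) : avg w (Xᴴ * M + M * X) = Xᴴ * avg w M + avg w M * X := by
  have hbrk' : ∀ i, (w i)ᴴ * Xᴴ - Xᴴ * (w i)ᴴ = ∑ j, c j i • (w j)ᴴ := by
    intro i
    have h1 := congrArg conjTranspose (hbrk i)
    rw [conjTranspose_sub, conjTranspose_mul, conjTranspose_mul, conjTranspose_sum] at h1
    rw [h1]
    refine Finset.sum_congr rfl fun j _ => ?_
    rw [conjTranspose_smul, star_trivial]
  have h1 : avg w (Xᴴ * M + M * X) - (Xᴴ * avg w M + avg w M * X) =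
      ∑ i, (((w i)ᴴ * Xᴴ - Xᴴ * (w i)ᴴ) * M * w i + (w i)ᴴ * M * (X * w i - w i * X)) := by
    unfold LZ.avg
    rw [Finset.mul_sum, Finset.sum_mul, ← Finset.sum_add_distrib, ← Finset.sum_sub_distrib]
    refine Finset.sum_congr rfl fun i _ => ?_
    noncomm_ring
  have h2 : ∑ i, (((w i)ᴴ * Xᴴ - Xᴴ * (w i)ᴴ) * M * w i +
      (w i)ᴴ * M * (X * w i - w i * X)) = 0 := by
    have h3 : ∀ i, ((w i)ᴴ * Xᴴ - Xᴴ * (w i)ᴴ) * M * w i + (w i)ᴴ * M * (X * w i - w i * X) =
        ∑ j, (c j i • ((w j)ᴴ * M * w i) + c j i • ((w i)ᴴ * M * w j)) := by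
      intro i
      rw [hbrk, hbrk', Finset.sum_mul, Finset.sum_mul, Finset.mul_sum, ← Finset.sum_add_distrib]
      refine Finset.sum_congr rfl fun j _ => ?_
      rw [Matrix.smul_mul, Matrix.smul_mul, Matrix.mul_smul]
    rw [Finset.sum_congr rfl fun i _ => h3 i]
    simp only [Finset.sum_add_distrib]
    have h4 : ∑ i, ∑ j, c j i • ((w i)ᴴ * M * w j) = ∑ i, ∑ j, c i j • ((w j)ᴴ * M * w i) := by
      rw [Finset.sum_comm]
    rw [h4, ← Finset.sum_add_distrib]
    refine Finset.sum_eq_zero fun i _ => ?_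
    rw [← Finset.sum_add_distrib]
    refine Finset.sum_eq_zero fun j _ => ?_
    have h5 : c j i + c i j = 0 := by
      rw [hanti i j, add_neg_cancel]
    rw [← add_smul, h5, zero_smul]
  rw [← sub_eq_zero, h1, h2]

/-- **Perron-Frobenius**: an irreducible family with an equivariant averaging operator does not
preserve an indefinite form. -/
theorem not_indefinite [Nonempty κ] {d : ℕ} {w : Fin d → Matrix κ κ ℂ} (hirr : Irr w)
    {𝔰 : Set (Matrix κ κ ℂ)} (hw : ∀ i, w i ∈ 𝔰)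
    (hequi : ∀ X ∈ 𝔰, ∀ M, avg w (Xᴴ * M + M * X) = Xᴴ * avg w M + avg w M * X)
    {H : Matrix κ κ ℂ} (hH : H.IsHermitian) (hdet : IsUnit H)
    (hskew : ∀ X ∈ 𝔰, Xᴴ * H + H * X = 0) {u v : κ → ℂ} (hu : 0 < qf H u) (hv : qf H v < 0) :
    False := by
  obtain ⟨κ', M, hM, htr, hMκ⟩ := exists_eigenvector hirr
  have hM0 : M ≠ 0 := by
    rintro rfl
    rw [trace_zero] at htr
    exact zero_ne_one htr
  have hpos : ∀ u, u ≠ 0 → 0 < qf M u := by
    intro u hu
    refine lt_of_le_of_ne (hM.2 u) fun h1 => hM0 ?_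
    exact eq_zero_of_ker hirr hM hMκ hu (hM.ker h1.symm)
  -- `M` is invariant
  have hinv : ∀ X ∈ 𝔰, Xᴴ * M + M * X = 0 := by
    intro X hX
    have hherm : (Xᴴ * M + M * X).IsHermitian := by
      unfold Matrix.IsHermitian
      rw [conjTranspose_add, conjTranspose_mul, conjTranspose_mul, conjTranspose_conjTranspose,
        hM.1.eq, add_comm]
    obtain ⟨t, ht, z, hz0, hz⟩ := exists_touch hM.1 hpos hherm
    have h1 : avg w (Xᴴ * M + M * X) = (κ' : ℂ) • (Xᴴ * M + M * X) := by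
      rw [hequi X hX, hMκ, Matrix.mul_smul, Matrix.smul_mul, smul_add]
    have h2 : Xᴴ * M + M * X - (t : ℂ) • M = 0 := by
      refine eq_zero_of_ker hirr ht (κ := κ') ?_ hz0 hz
      rw [avg_sub, avg_smul, h1, hMκ, smul_sub, smul_comm]
    rw [sub_eq_zero] at h2
    -- the trace
    have hMu : IsUnit M := by
      rw [isUnit_iff_isUnit_det, isUnit_iff_ne_zero]
      intro h3
      obtain ⟨z, hz0, hz⟩ := exists_mulVec_eq_zero_iff.2 h3
      have h4 := hpos z hz0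
      unfold qf at h4
      rw [hz, dotProduct_zero, Complex.zero_re] at h4
      exact lt_irrefl _ h4
    obtain ⟨Mi, hMinv, hinvM⟩ : ∃ Mi : Matrix κ κ ℂ, M * Mi = 1 ∧ Mi * M = 1 := by
      obtain ⟨M', hM'⟩ := hMu
      exact ⟨(M'⁻¹ : (Matrix κ κ ℂ)ˣ), by rw [← hM']; exact M'.mul_inv,
        by rw [← hM']; exact M'.inv_mul⟩
    obtain ⟨Hi, hHinv, hinvH⟩ : ∃ Hi : Matrix κ κ ℂ, H * Hi = 1 ∧ Hi * H = 1 := by
      obtain ⟨H', hH'⟩ := hdet
      exact ⟨(H'⁻¹ : (Matrix κ κ ℂ)ˣ), by rw [← hH']; exact H'.mul_inv,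
        by rw [← hH']; exact H'.inv_mul⟩
    have e1 : Xᴴ.trace + X.trace = 0 := by
      have h3 := congrArg (fun A => (Hi * A).trace) (hskew X hX)
      simp only [Matrix.mul_add, Matrix.mul_zero, trace_zero, trace_add] at h3
      rw [← Matrix.mul_assoc, trace_mul_comm, ← Matrix.mul_assoc, hHinv, Matrix.one_mul,
        ← Matrix.mul_assoc, hinvH, Matrix.one_mul] at h3
      exact h3
    have e2 : Xᴴ.trace + X.trace = (t : ℂ) * Fintype.card κ := by
      have h3 := congrArg (fun A => (Mi * A).trace) h2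
      simp only [Matrix.mul_add, Matrix.mul_smul, trace_smul, trace_add] at h3
      rw [← Matrix.mul_assoc, trace_mul_comm, ← Matrix.mul_assoc, hMinv, Matrix.one_mul,
        ← Matrix.mul_assoc, hinvM, Matrix.one_mul, trace_one, smul_eq_mul] at h3
      exact h3
    have e3 : (t : ℂ) = 0 := by
      rw [e1] at e2
      exact (mul_eq_zero.1 e2.symm).resolve_right (by
        exact_mod_cast Fintype.card_ne_zero)
    rw [h2, e3, zero_smul]
  obtain ⟨t, ht, z, hz0, hz⟩ := exists_touch hM.1 hpos hH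
  have h1 : H - (t : ℂ) • M = 0 := by
    let N : Submodule ℂ (κ → ℂ) := LinearMap.ker (H - (t : ℂ) • M).mulVecLin
    have hN : ∀ u, u ∈ N ↔ (H - (t : ℂ) • M) *ᵥ u = 0 := fun u => Iff.rfl
    have hst : ∀ X ∈ 𝔰, ∀ u ∈ N, X *ᵥ u ∈ N := by
      intro X hX u hu
      rw [hN] at hu ⊢
      have h2 : (H - (t : ℂ) • M) * X = -(Xᴴ * (H - (t : ℂ) • M)) := by
        rw [← add_eq_zero_iff_eq_neg, Matrix.sub_mul, Matrix.mul_sub, Matrix.smul_mul,
          Matrix.mul_smul]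
        have h3 := hskew X hX
        have h4 := hinv X hX
        have h5 : H * X - (t : ℂ) • (M * X) + (Xᴴ * H - (t : ℂ) • (Xᴴ * M)) =
            (Xᴴ * H + H * X) - (t : ℂ) • (Xᴴ * M + M * X) := by
          rw [smul_add]
          abel
        rw [h5, h3, h4, smul_zero, sub_zero]
      rw [mulVec_mulVec, h2, neg_mulVec, ← mulVec_mulVec, hu, mulVec_zero, neg_zero]
    rcases hirr N (fun i u hu => hst (w i) (hw i) u hu) with h1 | h1
    · have h2 := (hN z).2 hz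
      rw [h1, Submodule.mem_bot] at h2
      exact absurd h2 hz0
    · ext i j
      have h2 : Pi.single j 1 ∈ N := by
        rw [h1]
        trivial
      rw [hN, mulVec_single_one] at h2
      exact congrFun h2 i
  rw [sub_eq_zero] at h1
  rw [h1, qf_smul] at hu hv
  have h2 := hM.2 u
  have h3 := hM.2 v
  rcases le_or_gt t 0 with h4 | h4
  · have h5 : t * qf M u ≤ 0 := mul_nonpos_of_nonpos_of_nonneg h4 h2
    linarith
  · have h5 : 0 ≤ t * qf M v := mul_nonneg h4.le h3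
    linarith

omit [DecidableEq ι] in
/-- a positive vector has a negative definite orthogonal complement -/
lemma neg_of_orth {H : Matrix ι ι ℂ} (hL : Lor H) (hH : H.IsHermitian) {u v : ι → ℂ}
    (hu : 0 < qf H u) (hv0 : v ≠ 0) (huv : hf H u v = 0) : qf H v < 0 := by
  by_contra hcon
  push Not at hcon
  have hu0 : u ≠ 0 := by
    rintro rfl
    rw [qf_eq, hf_zero_right] at hu
    exact lt_irrefl _ hu
  refine hL.false hH hu.le hcon huv hu0 fun c hc => ?_
  rw [hc, hf_smul_right, hf_self hH] at huv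
  rcases mul_eq_zero.1 huv with h1 | h1
  · apply hv0
    rw [hc, h1, zero_smul]
  · have h2 : (qf H u : ℂ) ≠ 0 := by exact_mod_cast hu.ne'
    exact h2 h1

/-- The data: a Lie algebra of skew-hermitian matrices, a stable irreducible subspace. -/
structure UData (𝔥 : Submodule ℝ (Matrix ι ι ℂ)) (H : Matrix ι ι ℂ) (U : Submodule ℂ (ι → ℂ)) :
    Prop where
  br : ∀ X ∈ 𝔥, ∀ Y ∈ 𝔥, X * Y - Y * X ∈ 𝔥
  herm : H.IsHermitian
  lor : Lor H
  det : H.det ≠ 0
  skew : ∀ X ∈ 𝔥, Xᴴ * H + H * X = 0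
  st : ∀ X ∈ 𝔥, ∀ u ∈ U, X *ᵥ u ∈ U
  irr : ∀ N : Submodule ℂ (ι → ℂ), N ≤ U → (∀ X ∈ 𝔥, ∀ u ∈ N, X *ᵥ u ∈ N) → N = ⊥ ∨ N = U
  nd : ∀ X ∈ 𝔥, (∀ Y ∈ 𝔥, tf X Y = 0) → X = 0
  pos : ∃ u ∈ U, 0 < qf H u
  dim : 3 ≤ finrank ℂ U

/-- **there are elements with positive trace of the square** -/
theorem UData.exists_trace_pos {𝔥 : Submodule ℝ (Matrix ι ι ℂ)} {H : Matrix ι ι ℂ}
    {U : Submodule ℂ (ι → ℂ)} (h : UData 𝔥 H U) : ∃ X ∈ 𝔥, 0 < tf X X := by
  by_contra hcon
  push Not at hcon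
  obtain ⟨d, w, hw, hexp⟩ := exists_onb h.nd hcon
  obtain ⟨u₀, hu₀, hpos⟩ := h.pos
  set n := finrank ℂ U with hn
  have hne : Nonempty (Fin n) := ⟨⟨0, by have := h.dim; omega⟩⟩
  let bU : Basis (Fin n) ℂ U := finBasis ℂ U
  let Bu : Matrix ι (Fin n) ℂ := Matrix.of fun i j => (bU j : ι → ℂ) i
  have hBu : ∀ c : Fin n → ℂ, Bu *ᵥ c = ((∑ j, c j • bU j : U) : ι → ℂ) := by
    intro c
    funext i
    rw [Submodule.coe_sum, Finset.sum_apply]
    unfold mulVec dotProduct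
    refine Finset.sum_congr rfl fun j _ => ?_
    rw [Submodule.coe_smul, Pi.smul_apply, smul_eq_mul, mul_comm]
    rfl
  have hBuU : ∀ c, Bu *ᵥ c ∈ U := fun c => by
    rw [hBu]
    exact Submodule.coe_mem _
  have hBusurj : ∀ u ∈ U, ∃ c, Bu *ᵥ c = u := by
    intro u hu
    refine ⟨bU.repr ⟨u, hu⟩, ?_⟩
    rw [hBu, bU.sum_repr]
  have hBuinj : ∀ c, Bu *ᵥ c = 0 → c = 0 := by
    intro c hc
    rw [hBu] at hc
    have h1 : (∑ j, c j • bU j : U) = 0 := Subtype.ext hc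
    funext j
    exact Fintype.linearIndependent_iff.1 bU.linearIndependent c h1 j
  have hBuinj' : Function.Injective (fun c => Bu *ᵥ c) := by
    intro c c' hcc
    have h1 := hBuinj (c - c') (by
      rw [mulVec_sub, sub_eq_zero]
      exact hcc)
    exact sub_eq_zero.1 h1
  -- the restriction to the subspace
  have hπ : ∀ X : Matrix ι ι ℂ, (∀ u ∈ U, X *ᵥ u ∈ U) →
      ∃ Z : Matrix (Fin n) (Fin n) ℂ, X * Bu = Bu * Z := by
    intro X hX
    have h1 : ∀ j, ∃ c, Bu *ᵥ c = X *ᵥ (Bu *ᵥ Pi.single j 1) := fun j =>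
      hBusurj _ (hX _ (hBuU _))
    choose c hc using h1
    refine ⟨Matrix.of fun i j => c j i, ?_⟩
    ext i j
    have h2 := congrFun (hc j) i
    rw [mulVec_mulVec, mulVec_single_one] at h2
    exact h2.symm
  have hcancel : ∀ Z Z' : Matrix (Fin n) (Fin n) ℂ, Bu * Z = Bu * Z' → Z = Z' := by
    intro Z Z' hZ
    ext i j
    have h1 : Bu *ᵥ (Z *ᵥ Pi.single j 1) = Bu *ᵥ (Z' *ᵥ Pi.single j 1) := by
      rw [mulVec_mulVec, mulVec_mulVec, hZ]
    have h2 := hBuinj' h1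
    rw [mulVec_single_one, mulVec_single_one] at h2
    exact congrFun h2 i
  choose w' hw' using fun i => hπ (w i) (fun u hu => h.st _ (hw i) u hu)
  set HU : Matrix (Fin n) (Fin n) ℂ := Buᴴ * H * Bu with hHU
  have hqf : ∀ c, qf HU c = qf H (Bu *ᵥ c) := by
    intro c
    unfold qf
    rw [hHU, Matrix.mul_assoc, ← mulVec_mulVec, ← mulVec_mulVec, star_mulVec, ← dotProduct_mulVec]
  let 𝔰 : Set (Matrix (Fin n) (Fin n) ℂ) := {Z | ∃ X ∈ 𝔥, X * Bu = Bu * Z}
  have hirr : Irr w' := by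
    intro N hN
    have h1 : ∀ X ∈ 𝔥, ∀ c ∈ N, ∃ c' ∈ N, Bu *ᵥ c' = X *ᵥ (Bu *ᵥ c) := by
      intro X hX c hc
      refine ⟨-∑ i, (tf (w i) X : ℂ) • (w' i *ᵥ c), N.neg_mem (N.sum_mem fun i _ =>
        N.smul_mem _ (hN i c hc)), ?_⟩
      conv_rhs => rw [hexp X hX, neg_mulVec, sum_mulVec]
      rw [mulVec_neg, mulVec_sum]
      congr 1
      refine Finset.sum_congr rfl fun i _ => ?_
      rw [mulVec_smul, mulVec_mulVec, ← hw' i, ← mulVec_mulVec, smul_mulVec]
      funext x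
      simp
    rcases h.irr (N.map Bu.mulVecLin) (by
        rintro _ ⟨c, -, rfl⟩
        exact hBuU c) (by
        rintro X hX _ ⟨c, hc, rfl⟩
        obtain ⟨c', hc', h2⟩ := h1 X hX c hc
        exact ⟨c', hc', h2⟩) with h2 | h2
    · left
      rw [eq_bot_iff]
      intro c hc
      have h3 : Bu *ᵥ c ∈ N.map Bu.mulVecLin := ⟨c, hc, rfl⟩
      rw [h2, Submodule.mem_bot] at h3
      rw [Submodule.mem_bot]
      exact hBuinj c h3
    · right
      rw [eq_top_iff]
      intro c _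
      have h3 : Bu *ᵥ c ∈ N.map Bu.mulVecLin := by
        rw [h2]
        exact hBuU c
      obtain ⟨c', hc', h4⟩ := h3
      have h5 : c' = c := hBuinj' h4
      rw [← h5]
      exact hc'
  have hHUh : HU.IsHermitian := by
    unfold Matrix.IsHermitian
    rw [hHU, conjTranspose_mul, conjTranspose_mul, conjTranspose_conjTranspose, h.herm.eq,
      Matrix.mul_assoc]
  obtain ⟨c₀, hc₀⟩ := hBusurj u₀ hu₀
  have hhf : ∀ c c', hf HU c c' = hf H (Bu *ᵥ c) (Bu *ᵥ c') := by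
    intro c c'
    unfold hf
    rw [hHU, Matrix.mul_assoc, ← mulVec_mulVec, ← mulVec_mulVec, star_mulVec, ← dotProduct_mulVec]
  have hnegU : ∀ c, c ≠ 0 → hf HU c₀ c = 0 → qf HU c < 0 := by
    intro c hc hcc
    rw [hqf]
    rw [hhf, hc₀] at hcc
    exact neg_of_orth h.lor h.herm hpos (fun h0 => hc (hBuinj c h0)) hcc
  have hdetU : IsUnit HU := by
    rw [isUnit_iff_isUnit_det, isUnit_iff_ne_zero]
    intro h3
    obtain ⟨z, hz0, hz⟩ := exists_mulVec_eq_zero_iff.2 h3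
    have h4 := hnegU z hz0 (by
      unfold hf
      rw [hz, dotProduct_zero])
    unfold qf at h4
    rw [hz, dotProduct_zero, Complex.zero_re] at h4
    exact lt_irrefl _ h4
  -- a negative vector
  obtain ⟨v, hv0, hv⟩ : ∃ v, v ≠ 0 ∧ hf HU c₀ v = 0 := by
    let Φ : (Fin n → ℂ) →ₗ[ℂ] ℂ := hfL HU c₀
    have h1 : LinearMap.ker Φ ≠ ⊥ := by
      intro h2
      have h3 := LinearMap.finrank_range_add_finrank_ker Φ
      rw [h2, finrank_bot, finrank_fintype_fun_eq_card, Fintype.card_fin] at h3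
      have h4 : finrank ℂ (LinearMap.range Φ) ≤ 1 := by
        have := Submodule.finrank_le (LinearMap.range Φ)
        rwa [finrank_self] at this
      have := h.dim
      omega
    obtain ⟨v, hv, hv0⟩ := Submodule.exists_mem_ne_zero_of_ne_bot h1
    exact ⟨v, hv0, hv⟩
  refine not_indefinite (𝔰 := 𝔰) hirr (fun i => ⟨w i, hw i, hw' i⟩) ?_ hHUh hdetU ?_
    (u := c₀) (v := v) (by rw [hqf, hc₀]; exact hpos) (hnegU v hv0 hv)
  · rintro Z ⟨X, hX, hXZ⟩ M
    set c : Fin d → Fin d → ℝ := fun j i => -tf (w j) (X * w i - w i * X) with hc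
    have hanti : ∀ i j, c i j = -c j i := by
      intro i j
      simp only [hc, tf, Matrix.mul_sub, trace_sub, Complex.sub_re]
      have e1 : (w i * (X * w j)).trace = (w j * (w i * X)).trace := by
        rw [← Matrix.mul_assoc, trace_mul_comm]
      have e2 : (w i * (w j * X)).trace = (w j * (X * w i)).trace := by
        rw [← Matrix.mul_assoc (w j), ← trace_mul_comm (w i)]
      rw [e1, e2]
      ring
    have hbrk : ∀ i, X * w i - w i * X = ∑ j, c j i • w j := by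
      intro i
      conv_lhs => rw [hexp _ (h.br X hX _ (hw i))]
      rw [← Finset.sum_neg_distrib]
      exact Finset.sum_congr rfl fun j _ => by rw [neg_smul]
    refine avg_equi c hanti (fun i => ?_) M
    apply hcancel
    have h1 : Bu * (Z * w' i - w' i * Z) = (X * w i - w i * X) * Bu := by
      rw [Matrix.mul_sub, Matrix.sub_mul, ← Matrix.mul_assoc, ← hXZ, Matrix.mul_assoc, ← hw' i,
        ← Matrix.mul_assoc, ← Matrix.mul_assoc Bu, ← hw' i, Matrix.mul_assoc (w i), ← hXZ,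
        ← Matrix.mul_assoc (w i)]
    rw [h1, hbrk, Matrix.sum_mul, Matrix.mul_sum]
    refine Finset.sum_congr rfl fun j _ => ?_
    rw [Matrix.smul_mul, Matrix.mul_smul, hw' j]
  · rintro Z ⟨X, hX, hXZ⟩
    have h1 : Zᴴ * Buᴴ = Buᴴ * Xᴴ := by
      rw [← conjTranspose_mul, ← conjTranspose_mul, hXZ]
    rw [hHU]
    have h2 : Zᴴ * (Buᴴ * H * Bu) + Buᴴ * H * Bu * Z = Buᴴ * (Xᴴ * H + H * X) * Bu := by
      rw [← Matrix.mul_assoc, ← Matrix.mul_assoc, h1, Matrix.mul_assoc (Buᴴ * H), ← hXZ]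
      simp only [Matrix.mul_add, Matrix.add_mul, Matrix.mul_assoc]
    rw [h2, h.skew X hX, Matrix.mul_zero, Matrix.zero_mul]

end Pool.Agent.W5h86.LY
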